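import Pool.Agent.Y121.ZI.Stm

/-!
# ZI-CONV: log-convexity of the ranks (helper349, for helper121)
-/

open scoped TensorProduct

universe u v w

namespace Pool.Agent.Y349.ZI

open Module Pool.Agent.Y133.Half Pool.Agent.Y121.ZI Pool.Agent.Y121.ZI.NCTheory

variable {K : Type u} [Field K] {T : NCTheory.{u, v, w} K}

/-- the rank of the trace form for the identities -/
noncomputable def aa (X Y : T.Obj) : ℕ := a X LinearMap.id Y LinearMap.id

theorem aa_comm (X Y : T.Obj) : aa X Y = aa Y X := a_comm S_id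

theorem aa_iso {X X' : T.Obj} (h : OIso X X') (Y : T.Obj) : aa X Y = aa X' Y := h.a_eq Y _

theorem aa_sq [CharZero K] (X Y : T.Obj) : aa X Y ^ 2 ≤ aa X X * aa Y Y :=
  a_sq_le S_id (LinearMap.comp_id _) S_id (LinearMap.comp_id _)

theorem aa_d1 (h : SDual2 T) (X Y Z : T.Obj) :
    aa (T.ten X Z) Y ≤ aa X (T.ten Y (T.op Z)) := by
  have h1 := dual_move (h Z).1 (LinearMap.id : T.H X →ₗ[K] T.H X)
    (LinearMap.id : T.H Y →ₗ[K] T.H Y)
  rw [ex_id, ex_id] at h1
  exact h1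

theorem aa_d2 (h : SDual2 T) (X Y Z : T.Obj) :
    aa (T.ten X (T.op Z)) Y ≤ aa X (T.ten Y Z) := by
  have h1 := dual_move (h Z).2.1 (LinearMap.id : T.H X →ₗ[K] T.H X)
    (LinearMap.id : T.H Y →ₗ[K] T.H Y)
  rw [ex_id, ex_id] at h1
  exact h1

theorem iso3 [CharZero K] (W O A : T.Obj) :
    OIso (T.ten (T.ten W O) A) (T.ten (T.ten W A) O) :=
  (OIso.assoc W O A).trans
    ((OIso.ten (PIso.refl W LinearMap.id) (OIso.swap O A)).trans (OIso.assoc W A O).symm)

variable [CharZero K] (T)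

/-- CONV. -/
theorem conv (h : SDual2 T) : SConv T := by
  intro A l
  have e0 : ∀ k, al A k = aa (T.pow A k) (T.pow A k) := fun _ => rfl
  rw [e0, e0, e0]
  have hW : T.pow A (l + 1) = T.ten A (T.pow A l) := rfl
  have hW2 : T.pow A (l + 2) = T.ten A (T.pow A (l + 1)) := rfl
  have h1 : aa (T.pow A (l + 1)) (T.pow A (l + 1)) ≤
      aa (T.pow A l) (T.ten (T.pow A (l + 1)) (T.op A)) := by
    refine le_trans (le_of_eq ?_) (aa_d1 h (T.pow A l) (T.pow A (l + 1)) A)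
    exact aa_iso (OIso.swap A (T.pow A l)) (T.pow A (l + 1))
  have h2 := aa_sq (T.pow A l) (T.ten (T.pow A (l + 1)) (T.op A))
  have h3 : aa (T.ten (T.pow A (l + 1)) (T.op A)) (T.ten (T.pow A (l + 1)) (T.op A)) ≤
      aa (T.pow A (l + 2)) (T.pow A (l + 2)) := by
    refine (aa_d2 h _ _ A).trans ?_
    rw [aa_comm, aa_iso (iso3 (T.pow A (l + 1)) (T.op A) A)]
    refine (aa_d2 h _ _ A).trans (le_of_eq ?_)
    have i : OIso (T.ten (T.pow A (l + 1)) A) (T.pow A (l + 2)) := OIso.swap (T.pow A (l + 1)) A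
    rw [aa_iso i, aa_comm, aa_iso i]
  calc aa (T.pow A (l + 1)) (T.pow A (l + 1)) ^ 2
      ≤ aa (T.pow A l) (T.ten (T.pow A (l + 1)) (T.op A)) ^ 2 := Nat.pow_le_pow_left h1 2
    _ ≤ _ := h2
    _ ≤ aa (T.pow A l) (T.pow A l) * aa (T.pow A (l + 2)) (T.pow A (l + 2)) :=
        Nat.mul_le_mul_left _ h3
    _ = _ := mul_comm _ _

/-- AZZ. -/
theorem azz (h : SDual2 T) : SAzz T := by
  intro Y
  have e1 : aa (T.ten T.one Y) Y = aa Y Y := aa_iso (OIso.unit Y) Y
  apply le_antisymm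
  · have h1 : aa T.one (rr Y) = aa (T.ten Y (T.op Y)) T.one := aa_comm _ _
    have h2 := aa_d2 h Y T.one Y
    have h3 : aa Y (T.ten T.one Y) = aa Y Y := by rw [aa_comm, e1]
    change aa T.one (rr Y) ≤ aa Y Y
    rw [h1]
    exact h2.trans h3.le
  · have h1 := aa_d1 h T.one Y Y
    change aa Y Y ≤ aa T.one (rr Y)
    exact e1.ge.trans h1

/-- GOOD1. -/
theorem good1 : SGood1 T := by
  intro A
  refine ⟨?_, fun n => ?_⟩
  · rw [mul_zero, _root_.pow_zero]
    exact finrank_one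
  · have e1 : aa (T.ten T.one (T.pow A n)) (T.pow A n) = aa (T.pow A n) (T.pow A n) :=
      aa_iso (OIso.unit _) _
    rw [b, ex_id]
    exact e1.ge

end Pool.Agent.Y349.ZI
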